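import Pool.Agent.H80.AQ.W5
import Pool.Agent.H4.AMX.F3

/-!
# AMq module R1: characters over the block of a character which is not invariant
-/

open scoped Classical

namespace AMq

open AMx W5aux

namespace R1aux

/-- `ω_χ(b)` -/
noncomputable def om {G : Type} [Fintype G] [Group G] (χ b : G → ℂ) : ℂ := (∑ x, b x * χ x) / χ 1

theorem om_conv {G : Type} [Group G] [Fintype G] {χ : G → ℂ} (h : IsIrr χ) (h1 : χ 1 ≠ 0)
    {a b : G → ℂ} (ha : CF a) (hb : CF b) : om χ (conv a b) = om χ a * om χ b := by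
  unfold om
  rw [div_mul_div_comm, ← h.mul a b ha hb, mul_div_mul_right _ _ h1]

theorem cpow_cf {G : Type} [Group G] [Fintype G] {a : G → ℂ} (ha : CF a) (n : ℕ) :
    CF (cpow a n) := by
  induction n with
  | zero =>
    intro g x
    have : g * x * g⁻¹ = 1 ↔ x = 1 := by
      rw [mul_inv_eq_one, mul_eq_left]
    show (if g * x * g⁻¹ = 1 then (1 : ℂ) else 0) = if x = 1 then 1 else 0
    by_cases h : x = 1
    · rw [if_pos h, if_pos (this.mpr h)]
    · rw [if_neg h, if_neg (fun h' => h (this.mp h'))]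
  | succ n ih => exact CF.conv' ih ha

theorem om_cpow {G : Type} [Group G] [Fintype G] {χ : G → ℂ} (h : IsIrr χ) (h1 : χ 1 ≠ 0)
    {a : G → ℂ} (ha : CF a) (n : ℕ) : om χ (cpow a n) = om χ a ^ n := by
  induction n with
  | zero =>
    rw [pow_zero]
    unfold om
    rw [Finset.sum_eq_single (1 : G)]
    · show (if (1 : G) = 1 then (1 : ℂ) else 0) * χ 1 / χ 1 = 1
      rw [if_pos rfl, one_mul, div_self h1]
    · intro y _ hy
      show (if y = 1 then (1 : ℂ) else 0) * χ y = 0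
      rw [if_neg hy, zero_mul]
    · intro h'
      exact absurd (Finset.mem_univ _) h'
  | succ n ih =>
    rw [pow_succ, ← ih]
    exact om_conv h h1 (cpow_cf ha n) ha

theorem cpow_int {G : Type} [Group G] [Fintype G] {a : G → ℂ} (ha : ∀ x, IsIntegral ℤ (a x))
    (n : ℕ) : ∀ x, IsIntegral ℤ (cpow a n x) := by
  induction n with
  | zero =>
    intro x
    show IsIntegral ℤ (if x = 1 then (1 : ℂ) else 0)
    by_cases h : x = 1
    · rw [if_pos h]
      exact isIntegral_one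
    · rw [if_neg h]
      exact isIntegral_zero
  | succ n ih =>
    intro x
    show IsIntegral ℤ (∑ y, cpow a n y * a (y⁻¹ * x))
    exact IsIntegral.sum _ fun y _ => (ih y).mul (ha _)

theorem cpow_supp {G A : Type} [Group G] [Fintype G] [CommGroup A] (p : G →* A) {a : G → ℂ} (t : A)
    (ha : ∀ x, p x ≠ t → a x = 0) (n : ℕ) : ∀ x, p x ≠ t ^ n → cpow a n x = 0 := by
  induction n with
  | zero =>
    intro x hx
    show (if x = 1 then (1 : ℂ) else 0) = 0
    rw [if_neg]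
    rintro rfl
    exact hx (by rw [map_one, pow_zero])
  | succ n ih =>
    intro x hx
    show (∑ y, cpow a n y * a (y⁻¹ * x)) = 0
    refine Finset.sum_eq_zero fun y _ => ?_
    by_cases hy : p y = t ^ n
    · rw [ha (y⁻¹ * x), mul_zero]
      intro h
      apply hx
      rw [map_mul, map_inv, hy] at h
      rw [pow_succ]
      exact inv_mul_eq_iff_eq_mul.mp h
    · rw [ih y hy, zero_mul]

theorem cong_pow (hL : T_L0) {𝔪 : Ideal (integralClosure ℤ ℂ)} (hm : 𝔪.IsMaximal) {z : ℂ}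
    (hz : IsIntegral ℤ z) (n : ℕ) (h : Cong 𝔪 (z ^ (n + 1)) 0) : Cong 𝔪 z 0 := by
  induction n with
  | zero => rwa [zero_add, pow_one] at h
  | succ n ih =>
    rw [pow_succ] at h
    obtain ⟨_, _, _, _, _, _, h7, _⟩ := hL 𝔪 hm
    rcases h7 _ _ (hz.pow _) hz h with h' | h'
    · exact ih h'
    · exact h'

theorem p_conj {G A : Type} [Group G] [CommGroup A] (p : G →* A) {x y : G} (h : IsConj x y) :
    p y = p x := by
  obtain ⟨c, rfl⟩ := isConj_iff.mp h
  rw [map_mul, map_mul, map_inv, mul_comm (p c) (p x), mul_inv_cancel_right]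

end R1aux

open R1aux

theorem r1 (hC1 : AMx.T_C1) (hL0 : AMx.T_L0) (hL1 : AMx.T_L1) (hQ1 : T_Q1) (hQ2 : T_Q2)
    (hQ4 : T_Q4) : T_R1 := by
  intro 𝔪 hm q hq X K _ _ _ _ F θ₀ hθ₀ hinv θ hθ hsame χ hχ hov
  obtain ⟨hψ, hψo, _⟩ := hQ2 q X K F θ₀ hθ₀ hinv
  have ne : ∀ {G : Type} [Group G] [Fintype G] {χ : G → ℂ}, χ ∈ Irr G → χ 1 ≠ 0 := by
    intro G _ _ χ h
    obtain ⟨_, ⟨d, hd, h1⟩, _⟩ := hC1 G χ h
    rw [h1]
    exact_mod_cast hd.ne'
  -- class functions supported on the kernel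
  have key : ∀ b : X → ℂ, CF b → (∀ x, IsIntegral ℤ (b x)) → (∀ x, F.p x ≠ 1 → b x = 0) →
      Cong 𝔪 (om (F.ind θ₀) b) (om χ b) := by
    intro b hb hbi hb0
    unfold om
    rw [(hQ4 q X K F _ hψ).2.2.2 θ₀ hθ₀ hψo b hb hb0, (hQ4 q X K F _ hχ).2.2.2 θ hθ hov b hb hb0]
    exact hL1 𝔪 K K (MonoidHom.id K) θ₀ θ (hC1 K θ₀ hθ₀).1.cf hsame (fun k => b (F.io k))
      (cf_comp F.io hb) (fun k => hbi _)
  have hcen : ∀ (χ : X → ℂ) (x : X), cen (MonoidHom.id X) χ x = om χ (ci x) := fun χ x =>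
    cen_ci (MonoidHom.id X) χ x
  intro x
  rw [hcen, hcen]
  have hsupp : ∀ y, F.p y ≠ F.p x → ci x y = 0 := by
    intro y hy
    unfold ci
    rw [if_neg]
    exact fun h => hy (p_conj F.p h)
  by_cases hx : F.p x = 1
  · exact key (ci x) (ci_cf x) (ci_int x) (fun y hy => hsupp y (by rwa [hx]))
  · obtain ⟨_, _, _, _, _, _, _, h8, _, _⟩ := hQ1 q X K F
    have h0 : om (F.ind θ₀) (ci x) = 0 := by
      unfold om
      rw [Finset.sum_eq_zero, zero_div]
      intro y _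
      by_cases hy : F.p y = F.p x
      · rw [h8 θ₀ y (by rwa [hy]), mul_zero]
      · rw [hsupp y hy, zero_mul]
    obtain ⟨_, hsymm, _⟩ := hL0 𝔪 hm
    rw [h0]
    apply hsymm
    have hpq : (F.p x) ^ q = 1 := by
      apply Multiplicative.toAdd.injective
      rw [toAdd_pow, toAdd_one, nsmul_eq_mul, ZMod.natCast_self, zero_mul]
    have h1 := key (cpow (ci x) q) (cpow_cf (ci_cf x) q) (cpow_int (ci_int x) q)
      (fun y hy => cpow_supp F.p (F.p x) hsupp q y (by rwa [hpq]))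
    rw [om_cpow (hC1 X _ hψ).1 (ne hψ) (ci_cf x), om_cpow (hC1 X _ hχ).1 (ne hχ) (ci_cf x), h0,
      zero_pow hq.out.ne_zero] at h1
    have hint : IsIntegral ℤ (om χ (ci x)) := by
      rw [← hcen]
      exact (hC1 X χ hχ).2.2.2 x
    have h2 := hsymm _ _ h1
    obtain ⟨n, hn⟩ : ∃ n, q = n + 1 := ⟨q - 1, (Nat.sub_add_cancel hq.out.pos).symm⟩
    rw [hn] at h2
    exact cong_pow hL0 hm hint n h2

end AMq
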