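import Pool.Agent.H87.AQ.Targets
import Pool.Agent.H19.AMX.P3

/-!
# AMq module U2: the cyclic group of order `ℓ`
-/

open scoped Classical

namespace AMq

open AMx

namespace U2aux

/-- an algebraic integer with `z ^ ℓ = 1` is congruent to `1` -/
theorem cong_one {ℓ : ℕ} [hℓ : Fact ℓ.Prime] {𝔪 : Ideal (integralClosure ℤ ℂ)} (hm : 𝔪.IsMaximal)
    (hl : (ℓ : integralClosure ℤ ℂ) ∈ 𝔪) {z : ℂ} (hz : z ^ ℓ = 1) : Cong 𝔪 1 z := by
  have hzi : IsIntegral ℤ z := by
    apply IsIntegral.of_pow hℓ.out.pos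
    rw [hz]
    exact isIntegral_one
  let z' : integralClosure ℤ ℂ := ⟨z, hzi⟩
  have hz' : z' ^ ℓ = 1 := Subtype.ext (by simpa [z'] using hz)
  haveI := hm
  letI : Field (integralClosure ℤ ℂ ⧸ 𝔪) := Ideal.Quotient.field 𝔪
  haveI : CharP (integralClosure ℤ ℂ ⧸ 𝔪) ℓ := (CharP.charP_iff_prime_eq_zero hℓ.out).mpr (by
    have := Ideal.Quotient.eq_zero_iff_mem.mpr hl
    rwa [map_natCast] at this)
  have h1 : (Ideal.Quotient.mk 𝔪 (1 - z')) ^ ℓ = 0 := by
    rw [map_sub, sub_pow_char, ← map_pow, ← map_pow, hz', one_pow, sub_self]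
  have h2 := pow_eq_zero_iff hℓ.out.ne_zero |>.mp h1
  exact ⟨1 - z', Ideal.Quotient.eq_zero_iff_mem.mp h2, by simp [z']⟩

section comm

variable {G : Type} [Group G] [Fintype G]

theorem conj_iff (hc : ∀ a b : G, a * b = b * a) (x y : G) : IsConj x y ↔ x = y := by
  rw [isConj_iff]
  constructor
  · rintro ⟨c, h⟩
    rw [hc c x, mul_inv_cancel_right] at h
    exact h
  · rintro rfl
    exact ⟨1, by simp⟩

theorem cf_all (hc : ∀ a b : G, a * b = b * a) (a : G → ℂ) : CF a := by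
  intro g x
  rw [hc g x, mul_inv_cancel_right]

theorem cen_eq (hc : ∀ a b : G, a * b = b * a) (χ : G → ℂ) (x : G) :
    cen (MonoidHom.id G) χ x = χ x / χ 1 := by
  unfold cen
  congr 1
  rw [Finset.sum_eq_single x]
  · rw [if_pos]
    exact IsConj.refl _
  · intro y _ hy
    rw [if_neg]
    intro h
    exact hy ((conj_iff hc _ _).mp h).symm
  · intro h
    exact absurd (Finset.mem_univ _) h

theorem hom_irr (hC2 : T_C2) (f : G →* ℂˣ) : (fun x => (f x : ℂ)) ∈ Irr G := by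
  apply hC2
  refine ⟨⟨1, one_pos, by simp⟩, ?_, ?_, ?_⟩
  · intro g x
    simp only [map_mul, map_inv]
    rw [mul_comm (f g) (f x), mul_inv_cancel_right]
  · intro a b _ _
    rw [map_one, Units.val_one, mul_one]
    unfold conv
    have h1 : ∀ x, (∑ y, a y * b (y⁻¹ * x)) * (f x : ℂ)
        = ∑ y, (a y * f y) * (b (y⁻¹ * x) * f (y⁻¹ * x)) := by
      intro x
      rw [Finset.sum_mul]
      refine Finset.sum_congr rfl fun y _ => ?_
      have : (f x : ℂ) = (f y : ℂ) * (f (y⁻¹ * x) : ℂ) := by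
        rw [← Units.val_mul, ← map_mul, mul_inv_cancel_left]
      rw [this]
      ring
    simp_rw [h1]
    rw [Finset.sum_comm, Finset.sum_mul]
    refine Finset.sum_congr rfl fun y _ => ?_
    rw [← Finset.mul_sum]
    congr 1
    exact Fintype.sum_equiv (Equiv.mulLeft y⁻¹) _ _ fun x => rfl
  · have : ∀ x : G, (f x : ℂ) * (f x⁻¹ : ℂ) = 1 := by
      intro x
      rw [← Units.val_mul, ← map_mul, mul_inv_cancel, map_one, Units.val_one]
    simp_rw [this]
    simp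

theorem irr_hom (hC1 : T_C1) (hc : ∀ a b : G, a * b = b * a) (χ : G → ℂ) (h : χ ∈ Irr G) :
    ∃ f : G →* ℂˣ, χ = fun x => (f x : ℂ) := by
  obtain ⟨hI, ⟨d, hd, hd1⟩, _⟩ := hC1 G χ h
  have hne : χ 1 ≠ 0 := by
    rw [hd1]
    exact_mod_cast hd.ne'
  have hmul : ∀ g h : G, χ (g * h) * χ 1 = χ g * χ h := by
    intro g h
    have := hI.mul (fun x => if x = g then 1 else 0) (fun x => if x = h then 1 else 0)
      (cf_all hc _) (cf_all hc _)
    have h1 : ∀ x : G, conv (fun x => if x = g then (1 : ℂ) else 0)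
        (fun x => if x = h then (1 : ℂ) else 0) x = if x = g * h then 1 else 0 := by
      intro x
      unfold conv
      rw [Finset.sum_eq_single g]
      · beta_reduce
        rw [if_pos rfl, one_mul]
        by_cases hx : x = g * h
        · rw [if_pos hx, if_pos]
          rw [hx, inv_mul_cancel_left]
        · rw [if_neg hx, if_neg]
          intro h2
          exact hx (by rw [← h2, mul_inv_cancel_left])
      · intro y _ hy
        beta_reduce
        rw [if_neg hy, zero_mul]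
      · intro h
        exact absurd (Finset.mem_univ _) h
    simp_rw [h1] at this
    simpa [ite_mul, Finset.sum_ite_eq'] using this
  have hnorm := hI.norm
  have h2 : ∀ x : G, χ x * χ x⁻¹ = χ 1 * χ 1 := by
    intro x
    rw [← hmul, mul_inv_cancel]
  simp_rw [h2] at hnorm
  rw [Finset.sum_const, Finset.card_univ, nsmul_eq_mul, Nat.card_eq_fintype_card] at hnorm
  have hcard : (Fintype.card G : ℂ) ≠ 0 := by
    exact_mod_cast Fintype.card_ne_zero
  have h3 : χ 1 * χ 1 = 1 := by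
    have : (Fintype.card G : ℂ) * (χ 1 * χ 1) = (Fintype.card G : ℂ) * 1 := by
      rw [hnorm, mul_one]
    exact mul_left_cancel₀ hcard this
  have h4 : χ 1 = 1 := by
    rw [hd1] at h3 ⊢
    have h5 : d * d = 1 := by exact_mod_cast h3
    have : d = 1 := Nat.eq_one_of_mul_eq_one_left h5
    rw [this]
    simp
  let f : G →* ℂ := ⟨⟨χ, h4⟩, fun g h => by
    have := hmul g h
    rwa [h4, mul_one] at this⟩
  exact ⟨f.toHomUnits, by funext x; simp [f]⟩

theorem irr_card (hC1 : T_C1) (hC2 : T_C2) (hc : ∀ a b : G, a * b = b * a) :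
    (Irr G).ncard = Nat.card G := by
  letI : CommGroup G := { (inferInstance : Group G) with mul_comm := hc }
  have h1 : Irr G = Set.range (fun f : G →* ℂˣ => fun x => (f x : ℂ)) := by
    ext χ
    constructor
    · intro h
      obtain ⟨f, hf⟩ := irr_hom hC1 hc χ h
      exact ⟨f, hf.symm⟩
    · rintro ⟨f, rfl⟩
      exact hom_irr hC2 f
  have hinj : Function.Injective (fun f : G →* ℂˣ => fun x => (f x : ℂ)) := by
    intro f g h
    ext x
    exact congrFun h x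
  rw [h1, ← Set.image_univ, Set.ncard_image_of_injective _ hinj, Set.ncard_univ]
  exact CommGroup.card_monoidHom_of_hasEnoughRootsOfUnity G ℂ

theorem irr_pow {ℓ : ℕ} (hC1 : T_C1) (hc : ∀ a b : G, a * b = b * a)
    (hcard : Nat.card G = ℓ) (χ : G → ℂ) (h : χ ∈ Irr G) : χ 1 = 1 ∧ ∀ x, χ x ^ ℓ = 1 := by
  obtain ⟨f, rfl⟩ := irr_hom hC1 hc χ h
  refine ⟨by simp, fun x => ?_⟩
  rw [← Units.val_pow_eq_pow_val, ← map_pow, ← hcard, pow_card_eq_one', map_one, Units.val_one]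

variable {ℓ : ℕ} [hℓ : Fact ℓ.Prime] {𝔪 : Ideal (integralClosure ℤ ℂ)}

theorem same (hm : 𝔪.IsMaximal) (hl : (ℓ : integralClosure ℤ ℂ) ∈ 𝔪) (hC1 : T_C1)
    (hc : ∀ a b : G, a * b = b * a) (hcard : Nat.card G = ℓ) (χ : G → ℂ) (h : χ ∈ Irr G) :
    SameBlock 𝔪 (fun _ => 1) χ := by
  intro x
  obtain ⟨h1, h2⟩ := irr_pow hC1 hc hcard χ h
  rw [cen_eq hc, cen_eq hc, h1, div_one, div_one]
  exact cong_one hm hl (h2 x)

theorem triv_irr (hC2 : T_C2) : (fun _ => 1 : G → ℂ) ∈ Irr G := by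
  have := hom_irr hC2 (1 : G →* ℂˣ)
  simpa using this

theorem defect (hm : 𝔪.IsMaximal) (hl : (ℓ : integralClosure ℤ ℂ) ∈ 𝔪) (hL0 : T_L0)
    (hc : ∀ a b : G, a * b = b * a) (hcard : Nat.card G = ℓ) (D : Subgroup G) (hD : D = ⊤) :
    IsDefect ℓ 𝔪 (fun _ => 1) D := by
  subst hD
  have hcen : ∀ x : G, (⊤ : Subgroup G) ≤ Subgroup.centralizer {x} := by
    intro x y _
    rw [Subgroup.mem_centralizer_iff]
    intro z hz
    rw [Set.mem_singleton_iff] at hz
    subst hz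
    exact hc _ _
  refine ⟨?_, ⟨1, ?_, hcen 1, ?_⟩, ?_⟩
  · apply IsPGroup.of_card (n := 1)
    rw [pow_one, ← hcard]
    exact Subgroup.card_top
  · rw [cen_eq hc, div_one]
    have h8 := (hL0 𝔪 hm).2.2.2.2.2.2.2 ℓ hl 1
    rw [Nat.cast_one] at h8
    intro h
    exact hℓ.out.one_lt.ne' (Nat.dvd_one.mp (h8.mp h))
  · rw [Subgroup.relIndex_top_left]
    exact fun h => hℓ.out.one_lt.ne' (Nat.dvd_one.mp h)
  · intro x _
    exact ⟨1, fun d hd => by simpa using hcen x hd⟩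

theorem k0_val (hm : 𝔪.IsMaximal) (hl : (ℓ : integralClosure ℤ ℂ) ∈ 𝔪) (hC1 : T_C1) (hC2 : T_C2)
    (hc : ∀ a b : G, a * b = b * a) (hcard : Nat.card G = ℓ) (D : Subgroup G) (hD : D = ⊤) :
    k0 ℓ 𝔪 (fun _ => 1) D = ℓ := by
  subst hD
  unfold k0
  rw [← hcard, ← irr_card hC1 hC2 hc]
  congr 1
  ext χ
  constructor
  · exact fun h => h.1
  · intro h
    refine ⟨h, same hm hl hC1 hc hcard χ h, 1, ?_, ?_⟩
    · rw [(irr_pow hC1 hc hcard χ h).1, Nat.cast_one]
    · rw [Subgroup.index_top]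

theorem second (hm : 𝔪.IsMaximal) (hl : (ℓ : integralClosure ℤ ℂ) ∈ 𝔪) (hC1 : T_C1)
    (hC2 : T_C2) (hc : ∀ a b : G, a * b = b * a) (hcard : Nat.card G = ℓ) :
    ∃ χ : G → ℂ, χ ∈ Irr G ∧ (∃ x, χ x ≠ 1) ∧ χ 1 = 1 ∧ SameBlock 𝔪 (fun _ => 1) χ := by
  have h1 : 1 < (Irr G).ncard := by
    rw [irr_card hC1 hC2 hc, hcard]
    exact hℓ.out.one_lt
  obtain ⟨χ, hχ, hne⟩ := Set.exists_ne_of_one_lt_ncard h1 (fun _ => 1)
  refine ⟨χ, hχ, ?_, (irr_pow hC1 hc hcard χ hχ).1, same hm hl hC1 hc hcard χ hχ⟩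
  by_contra h
  push Not at h
  exact hne (funext h)

end comm

end U2aux

open U2aux

theorem u2 (hC1 : AMx.T_C1) (hC2 : AMx.T_C2) (hL0 : AMx.T_L0) : T_U2 := by
  intro ℓ hℓ 𝔪 hm hl
  let C := Multiplicative (ZMod ℓ)
  have hc : ∀ a b : C, a * b = b * a := fun a b => mul_comm a b
  have hcard : Nat.card C = ℓ := by
    rw [Nat.card_eq_of_bijective _ (Multiplicative.toAdd (α := ZMod ℓ)).bijective, Nat.card_zmod]
  let N := Subgroup.normalizer (((⊤ : Subgroup C)) : Set C)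
  have hN : ∀ x : C, x ∈ N := by
    intro x
    rw [Subgroup.mem_normalizer_iff]
    intro y
    simp
  let e : N ≃* C :=
    { toFun := fun x => x.1
      invFun := fun x => ⟨x, hN x⟩
      left_inv := fun _ => rfl
      right_inv := fun _ => rfl
      map_mul' := fun _ _ => rfl }
  have hc' : ∀ a b : N, a * b = b * a := fun a b => Subtype.ext (hc _ _)
  have hcard' : Nat.card N = ℓ := by
    rw [Nat.card_congr e.toEquiv, hcard]
  have htop : (⊤ : Subgroup C).subgroupOf N = ⊤ := Subgroup.subgroupOf_eq_top.mpr le_top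
  obtain ⟨χ₂, a1, a2, a3, a4⟩ := second (G := C) (ℓ := ℓ) hm hl hC1 hC2 hc hcard
  obtain ⟨ψ₂, b1, b2, b3, b4⟩ := second (G := N) (ℓ := ℓ) hm hl hC1 hC2 hc' hcard'
  refine ⟨χ₂, ψ₂, ⟨triv_irr hC2, triv_irr hC2, defect hm hl hL0 hc hcard _ rfl,
    defect hm hl hL0 hc' hcard' _ htop, ?_⟩, k0_val hm hl hC1 hC2 hc hcard _ rfl,
    k0_val hm hl hC1 hC2 hc' hcard' _ htop, a1, a2, a3, a4, b1, b2, b3, b4⟩
  intro x
  rw [HP.cen_comp e (MonoidHom.id C) N.subtype (fun _ => rfl) (fun _ => 1) (fun _ => 1)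
    (fun _ => rfl) x]
  exact (hL0 𝔪 hm).1 _

end AMq
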