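import Pool.Agent.H87.AQ.Targets
import Pool.Agent.H19.AMX.P3
import Pool.Agent.H16.AMX.P2

/-!
# AMq modules V2 and V3: central characters, blocks, Brauer correspondence and powers
-/

open scoped Classical

namespace AMq

open AMx

namespace V2aux

theorem isConj_pi {ι H : Type} [Group H] (f g : ι → H) :
    IsConj f g ↔ ∀ i, IsConj (f i) (g i) := by
  simp only [isConj_iff]
  constructor
  · rintro ⟨c, hc⟩ i
    exact ⟨c i, congrFun hc i⟩
  · intro h
    choose c hc using h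
    exact ⟨c, funext hc⟩

theorem sum_prod {ι H : Type} [Fintype ι] [DecidableEq ι] [Fintype H] (F : ι → H → ℂ) :
    ∑ f : ι → H, ∏ i, F i (f i) = ∏ i, ∑ h, F i h := by
  rw [Finset.prod_univ_sum, Fintype.piFinset_univ]

theorem cen_pw {ι H N : Type} [Fintype ι] [DecidableEq ι] [Group H] [Group N] [Fintype N]
    (j : N →* H) (J : (ι → N) →* (ι → H)) (hJ : ∀ g i, J g i = j (g i)) (τ : ι → N → ℂ)
    (f : ι → H) : cen J (pw τ) f = ∏ i, cen j (τ i) (f i) := by
  unfold cen pw
  rw [Finset.prod_div_distrib, ← sum_prod]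
  congr 1
  refine Finset.sum_congr rfl fun g _ => ?_
  by_cases h : IsConj f (J g)
  · rw [if_pos h]
    refine Finset.prod_congr rfl fun i _ => ?_
    rw [if_pos]
    have := (isConj_pi f (J g)).mp h i
    rwa [hJ] at this
  · rw [if_neg h]
    have : ∃ i, ¬ IsConj (f i) (j (g i)) := by
      by_contra hc
      push Not at hc
      exact h ((isConj_pi _ _).mpr fun i => by rw [hJ]; exact hc i)
    obtain ⟨i, hi⟩ := this
    exact (Finset.prod_eq_zero (Finset.mem_univ i) (by rw [if_neg hi])).symm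

theorem cong_prod (hL : T_L0) {𝔪 : Ideal (integralClosure ℤ ℂ)} (hm : 𝔪.IsMaximal) {ι : Type}
    (s : Finset ι) (a b : ι → ℂ) (ha : ∀ i ∈ s, IsIntegral ℤ (a i))
    (h : ∀ i ∈ s, Cong 𝔪 (a i) (b i)) : Cong 𝔪 (∏ i ∈ s, a i) (∏ i ∈ s, b i) := by
  induction s using Finset.induction_on with
  | empty => simpa using (hL 𝔪 hm).1 1
  | insert i s hi ih =>
    rw [Finset.prod_insert hi, Finset.prod_insert hi]
    refine HP.cong_mul hL hm (ha i (Finset.mem_insert_self i s)) ?_
      (h i (Finset.mem_insert_self i s))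
      (ih (fun j hj => ha j (Finset.mem_insert_of_mem hj))
        fun j hj => h j (Finset.mem_insert_of_mem hj))
    exact IsIntegral.prod _ fun j hj => ha j (Finset.mem_insert_of_mem hj)

theorem one_ne (hC1 : T_C1) {G : Type} [Group G] [Fintype G] {χ : G → ℂ} (h : χ ∈ Irr G) :
    χ 1 ≠ 0 := by
  obtain ⟨_, ⟨d, hd, h1⟩, _⟩ := hC1 G χ h
  rw [h1]
  exact_mod_cast hd.ne'

end V2aux

open V2aux

theorem v2 (hC1 : AMx.T_C1) (hL0 : AMx.T_L0) : T_V2 := by
  intro 𝔪 hm ι _ _ H _ _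
  have h1 : ∀ (τ : ι → H → ℂ) (f : ι → H),
      cen (MonoidHom.id (ι → H)) (pw τ) f = ∏ i, cen (MonoidHom.id H) (τ i) (f i) :=
    fun τ f => cen_pw (MonoidHom.id H) (MonoidHom.id (ι → H)) (fun _ _ => rfl) τ f
  refine ⟨h1, ?_, ?_⟩
  · intro τ τ' hτ hτ'
    constructor
    · intro h i x
      have h2 := h (Pi.mulSingle i x)
      rw [h1, h1] at h2
      have key : ∀ σ : ι → H → ℂ, (∀ i, σ i ∈ Irr H) →
          ∏ k, cen (MonoidHom.id H) (σ k) ((Pi.mulSingle i x : ι → H) k)
            = cen (MonoidHom.id H) (σ i) x := by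
        intro σ hσ
        rw [Finset.prod_eq_single i]
        · rw [Pi.mulSingle_eq_same]
        · intro k _ hk
          rw [Pi.mulSingle_eq_of_ne hk]
          exact P2aux.cen_one _ (one_ne hC1 (hσ k))
        · intro h
          exact absurd (Finset.mem_univ i) h
      rwa [key τ hτ, key τ' hτ'] at h2
    · intro h f
      rw [h1, h1]
      exact cong_prod hL0 hm _ _ _ (fun i _ => (hC1 H _ (hτ i)).2.2.2 _) (fun i _ => h i (f i))
  · intro y τ
    unfold pw
    rw [Finset.prod_div_distrib, ← sum_prod]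
    congr 1
    refine Finset.sum_congr rfl fun g _ => ?_
    rw [Finset.prod_mul_distrib]

theorem v3 (hC1 : AMx.T_C1) (hL0 : AMx.T_L0) : T_V3 := by
  intro 𝔪 hm ι _ _ H N _ _ _ _ j τ τ' hτ h f
  rw [cen_pw (MonoidHom.id H) (MonoidHom.id (ι → H)) (fun _ _ => rfl) τ f,
    cen_pw j (j.compLeft ι) (fun _ _ => rfl) τ' f]
  exact cong_prod hL0 hm _ _ _ (fun i _ => (hC1 H _ (hτ i)).2.2.2 _) (fun i _ => h i (f i))

end AMq
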