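import Pool.Agent.H87.AQ.Targets

/-!
# AMq module W5: Brauer correspondence and wreath products
-/

open scoped Classical

namespace AMq

open AMx

namespace W5aux

/-- The class function `y ↦ [x ~ y]`. -/
noncomputable def ci {G : Type} [Group G] (x y : G) : ℂ := if IsConj x y then 1 else 0

theorem ci_cf {G : Type} [Group G] (x : G) : CF (ci x) := by
  intro g y
  have : IsConj x (g * y * g⁻¹) ↔ IsConj x y := by
    have h1 : IsConj y (g * y * g⁻¹) := isConj_iff.mpr ⟨g, rfl⟩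
    exact ⟨fun h => h.trans h1.symm, fun h => h.trans h1⟩
  unfold ci
  by_cases h : IsConj x y
  · rw [if_pos h, if_pos (this.mpr h)]
  · rw [if_neg h, if_neg (fun h' => h (this.mp h'))]

theorem ci_int {G : Type} [Group G] (x y : G) : IsIntegral ℤ (ci x y) := by
  unfold ci
  by_cases h : IsConj x y
  · rw [if_pos h]
    exact isIntegral_one
  · rw [if_neg h]
    exact isIntegral_zero

theorem cen_ci {N G : Type} [Group N] [Fintype N] [Group G] (j : N →* G) (ψ : N → ℂ) (x : G) :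
    cen j ψ x = (∑ y, ci x (j y) * ψ y) / ψ 1 := by
  unfold cen ci
  congr 1
  refine Finset.sum_congr rfl fun y _ => ?_
  by_cases h : IsConj x (j y)
  · rw [if_pos h, if_pos h, one_mul]
  · rw [if_neg h, if_neg h, zero_mul]

theorem cf_comp {G M : Type} [Group G] [Group M] (J : M →* G) {a : G → ℂ} (ha : CF a) :
    CF (fun y => a (J y)) := by
  intro g y
  simp only [map_mul, map_inv]
  exact ha _ _

/-- central functions of an induced function -/
theorem cen_ind (hQ1 : T_Q1) {q : ℕ} [hq : Fact q.Prime] {X K G : Type} [Group X] [Fintype X]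
    [Group K] [Fintype K] [Group G] (F : Cy q X K) (J : X →* G) (θ : K → ℂ) (x : G) :
    cen J (F.ind θ) x = (∑ k, ci x (J (F.io k)) * θ k) / θ 1 := by
  obtain ⟨_, _, _, _, _, h6, _, _, h9, _⟩ := hQ1 q X K F
  have hq0 : (q : ℂ) ≠ 0 := by exact_mod_cast hq.out.ne_zero
  have h := h9 (fun y => ci x (J y)) (cf_comp J (ci_cf x)) θ
  rw [cen_ci, h6, ← mul_div_mul_left _ (θ 1) hq0, ← h]

end W5aux

open W5aux

theorem w5 (hC1 : AMx.T_C1) (hL1 : AMx.T_L1) (hQ1 : T_Q1) (hV1 : T_V1) (hV3 : T_V3) : T_W5 := by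
  intro 𝔪 hm q hq X H M N _ _ _ _ _ _ _ _ F F' _ _ j J _ hJ _ τ τ' hτ hτ' hcor x
  have hcf : CF (pw τ) := (hC1 _ _ ((hV1 (ZMod q) H).1 τ hτ)).1.cf
  have hc := hV3 𝔪 hm (ZMod q) H N j τ τ' hτ (fun i => hcor i i)
  have h := hL1 𝔪 (ZMod q → N) (ZMod q → H) (j.compLeft (ZMod q)) (pw τ) (pw τ') hcf hc
    (fun k => ci x (F.io k)) (cf_comp F.io (ci_cf x)) (fun k => ci_int _ _)
  rw [cen_ind hQ1, cen_ind hQ1]
  simp only [MonoidHom.id_apply, hJ]
  exact h

end AMq
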